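import Pool.Agent.Helper66.AG.DEC

set_option autoImplicit false

namespace Pool.Agent.Helper77.AG

open Pool.Agent.Helper32.AG Pool.Agent.Helper66.AG

universe u

section Abs

variable {L : Type*} [CommRing L]

theorem card_units (h : IsField L) : Nat.card Lˣ = Nat.card L - 1 := by
  let _ := h.toField
  exact Nat.card_units (α := L)

theorem card_pow (h : IsField L) [Finite L] {M : Type*} [AddCommGroup M] [Module L M] [Finite M]
    [Nontrivial M] : ∃ b, 0 < b ∧ Nat.card M = Nat.card L ^ b := by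
  let _ := h.toField
  exact ⟨Module.finrank L M, Module.finrank_pos, Module.natCard_eq_pow_finrank⟩

/-- The annihilator of `e`. -/
def An (e : L) : Ideal L := LinearMap.ker (LinearMap.toSpanSingleton L L e)

theorem mem_An {e x : L} : x ∈ An e ↔ x * e = 0 := by
  unfold An
  rw [LinearMap.mem_ker, LinearMap.toSpanSingleton_apply, smul_eq_mul]

theorem isField_quot {e : L} (he : e ≠ 0) (hf : ∀ x, x * e ≠ 0 → ∃ y, x * y * e = e) :
    IsField (L ⧸ An e) where
  exists_pair_ne := by
    refine ⟨1, 0, ?_⟩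
    intro h
    have h1 : (Ideal.Quotient.mk (An e) 1) = 0 := h
    rw [Ideal.Quotient.eq_zero_iff_mem, mem_An, one_mul] at h1
    exact he h1
  mul_comm := mul_comm
  mul_inv_cancel := by
    intro a ha
    obtain ⟨x, rfl⟩ := Ideal.Quotient.mk_surjective a
    have h1 : x * e ≠ 0 := by
      intro h2
      exact ha (Ideal.Quotient.eq_zero_iff_mem.2 (mem_An.2 h2))
    obtain ⟨y, hy⟩ := hf x h1
    refine ⟨Ideal.Quotient.mk _ y, ?_⟩
    rw [← map_mul, ← map_one (Ideal.Quotient.mk (An e)), Ideal.Quotient.eq, mem_An, sub_mul, hy,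
      one_mul, sub_self]

theorem card_quot (e : L) : Nat.card (L ⧸ An e) = Nat.card {z : L // ∃ x, z = x * e} := by
  refine Nat.card_congr ((LinearMap.quotKerEquivRange
    (LinearMap.toSpanSingleton L L e)).toEquiv.trans ?_)
  refine Equiv.subtypeEquivRight fun z => ?_
  rw [LinearMap.mem_range]
  constructor
  · rintro ⟨x, hx⟩
    exact ⟨x, by rw [← hx, LinearMap.toSpanSingleton_apply, smul_eq_mul]⟩
  · rintro ⟨x, hx⟩
    exact ⟨x, by rw [hx, LinearMap.toSpanSingleton_apply, smul_eq_mul]⟩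

/-- A group which embeds into the ring. -/
theorem card_dvd [Finite L] {A : Type*} [Group A] (ι : A →* L) (hι : Function.Injective ι)
    {e e' : L} (he : e ≠ 0) (hf : ∀ x, x * e ≠ 0 → ∃ y, x * y * e = e)
    (he' : e' ≠ 0) (hf' : ∀ x, x * e' ≠ 0 → ∃ y, x * y * e' = e') (hs : e + e' = 1) :
    Nat.card A ∣ (Nat.card {z : L // ∃ x, z = x * e} - 1) *
      (Nat.card {z : L // ∃ x, z = x * e'} - 1) := by
  have h1 := isField_quot he hf
  have h2 := isField_quot he' hf'
  rw [← card_quot, ← card_quot, ← card_units h1, ← card_units h2, ← Nat.card_prod]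
  let f : A →* (L ⧸ An e)ˣ × (L ⧸ An e')ˣ :=
    MonoidHom.prod
      (MonoidHom.toHomUnits (((Ideal.Quotient.mk (An e) : L →+* L ⧸ An e) : L →* L ⧸ An e).comp ι))
      (MonoidHom.toHomUnits
        (((Ideal.Quotient.mk (An e') : L →+* L ⧸ An e') : L →* L ⧸ An e').comp ι))
  refine Subgroup.card_dvd_of_injective f ?_
  intro a b hab
  apply hι
  have h3 : ((f a).1 : L ⧸ An e) = (f b).1 := by rw [hab]
  have h4 : ((f a).2 : L ⧸ An e') = (f b).2 := by rw [hab]
  have h5 : Ideal.Quotient.mk (An e) (ι a) = Ideal.Quotient.mk (An e) (ι b) := h3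
  have h6 : Ideal.Quotient.mk (An e') (ι a) = Ideal.Quotient.mk (An e') (ι b) := h4
  rw [Ideal.Quotient.eq, mem_An] at h5 h6
  have h7 : ι a - ι b = (ι a - ι b) * e + (ι a - ι b) * e' := by
    rw [← mul_add, hs, mul_one]
  rw [h5, h6, add_zero] at h7
  exact sub_eq_zero.1 h7

theorem card_mod [Finite L] {M : Type*} [AddCommGroup M] [Module L M] [Finite M]
    [Nontrivial M] {e : L} (he : e ≠ 0) (hf : ∀ x, x * e ≠ 0 → ∃ y, x * y * e = e)
    (hM : ∀ m : M, e • m = m) :
    ∃ b, 0 < b ∧ Nat.card M = Nat.card {z : L // ∃ x, z = x * e} ^ b := by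
  have ht : Module.IsTorsionBySet L M (An e) := by
    rintro m ⟨x, hx⟩
    have hx' : x * e = 0 := mem_An.1 hx
    change x • m = 0
    rw [← hM m, smul_smul, hx', zero_smul]
  let _ := ht.module
  have : Finite (L ⧸ An e) := Finite.of_surjective _ Ideal.Quotient.mk_surjective
  rw [← card_quot]
  exact card_pow (isField_quot he hf)

end Abs

variable {p : ℕ} [Fact p.Prime] {U : Type u} [AddCommGroup U] [Module (ZMod p) U]

theorem twaN (p : ℕ) [Fact p.Prime] (U : Type u) [AddCommGroup U] [Module (ZMod p) U]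
    [Finite U] [Nontrivial U] (H A : Subgroup (U ≃ₗ[ZMod p] U)) (q : ℕ)
    (e : Fin 2 → Module.End (ZMod p) U) (hAH : A ≤ H)
    (hn : ∀ h ∈ H, ∀ a ∈ A, h * a * h⁻¹ ∈ A) (hc : ∀ a ∈ A, ∀ b ∈ A, a * b = b * a)
    (hD : Dec H A 2 q e) :
    ∃ a b : ℕ, 0 < a ∧ 0 < b ∧
      (∀ i, Nat.card {z : Module.End (ZMod p) U // ∃ x ∈ Rg A, z = x * e i} = p ^ a) ∧
      q = p ^ (a * b) ∧ Nat.card A ≤ (p ^ a - 1) ^ 2 ∧ Nat.card A ∣ (p ^ a - 1) ^ 2 := by
  have hR := Rg_comm hc
  have hfE : Finite (Module.End (ZMod p) U) :=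
    Finite.of_injective (fun f : Module.End (ZMod p) U => (f : U → U)) DFunLike.coe_injective
  let _ : CommRing (Rg A) :=
    { (Rg A).toRing with mul_comm := fun x y => Subtype.ext (hR x x.2 y y.2) }
  -- the idempotents as elements of the ring
  let E : Fin 2 → Rg A := fun i => ⟨e i, hD.mem i⟩
  have hE0 : ∀ i, E i ≠ 0 := fun i h => hD.ne i (congrArg Subtype.val h)
  have hEf : ∀ i, ∀ x : Rg A, x * E i ≠ 0 → ∃ y, x * y * E i = E i := by
    intro i x hx
    obtain ⟨y, hy, hxy⟩ := hD.fld i x x.2 (fun h => hx (Subtype.ext h))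
    exact ⟨⟨y, hy⟩, Subtype.ext hxy⟩
  have hEs : E 0 + E 1 = 1 := by
    apply Subtype.ext
    have := hD.sum
    rw [Fin.sum_univ_two] at this
    exact this
  -- the fields
  have hcard : ∀ i, Nat.card {z : Rg A // ∃ x, z = x * E i} =
      Nat.card {z : Module.End (ZMod p) U // ∃ x ∈ Rg A, z = x * e i} := by
    intro i
    refine Nat.card_congr
      { toFun := fun z => ⟨(z.1 : Module.End (ZMod p) U), ?_⟩
        invFun := fun z => ⟨⟨z.1, ?_⟩, ?_⟩
        left_inv := fun z => rfl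
        right_inv := fun z => rfl }
    · obtain ⟨x, hx⟩ := z.2
      exact ⟨x, x.2, congrArg Subtype.val hx⟩
    · obtain ⟨x, hx, hz⟩ := z.2
      rw [hz]
      exact (Rg A).mul_mem hx (hD.mem i)
    · obtain ⟨x, hx, hz⟩ := z.2
      exact ⟨⟨x, hx⟩, Subtype.ext hz⟩
  -- the order of the fields is a power of `p`
  have hpow : ∃ a, 0 < a ∧
      Nat.card {z : Module.End (ZMod p) U // ∃ x ∈ Rg A, z = x * e 0} = p ^ a := by
    let V : Submodule (ZMod p) (Module.End (ZMod p) U) :=
      (Subalgebra.toSubmodule (Rg A)).map (LinearMap.mulRight (ZMod p) (e 0))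
    have h1 : Nat.card {z : Module.End (ZMod p) U // ∃ x ∈ Rg A, z = x * e 0} = Nat.card V := by
      refine Nat.card_congr (Equiv.subtypeEquivRight fun z => ?_)
      constructor
      · rintro ⟨x, hx, hz⟩
        exact ⟨x, hx, hz.symm⟩
      · rintro ⟨x, hx, hz⟩
        exact ⟨x, hx, hz.symm⟩
    have hV : Nontrivial V := by
      refine ⟨⟨0, ⟨⟨e 0, 1, (Rg A).one_mem, ?_⟩, ?_⟩⟩⟩
      · exact one_mul _
      · intro h
        exact hD.ne 0 (congrArg Subtype.val h).symm
    refine ⟨Module.finrank (ZMod p) V, Module.finrank_pos, ?_⟩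
    rw [h1, Module.natCard_eq_pow_finrank (K := ZMod p), Nat.card_zmod]
  obtain ⟨a, ha, hcard0⟩ := hpow
  -- both fields have the same order
  have hcard1 : Nat.card {z : Module.End (ZMod p) U // ∃ x ∈ Rg A, z = x * e 1} = p ^ a := by
    rw [← hcard0]
    obtain ⟨τ, hτ, hτe⟩ := hD.trans 0 1
    symm
    refine Nat.card_congr
      { toFun := fun z => ⟨cj τ z.1, ?_⟩
        invFun := fun z => ⟨cj τ⁻¹ z.1, ?_⟩
        left_inv := fun z => Subtype.ext (cj_inv_cj τ z.1)
        right_inv := fun z => Subtype.ext (cj_cj_inv τ z.1) }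
    · obtain ⟨x, hx, hz⟩ := z.2
      exact ⟨cj τ x, cj_mem hn hτ hx, by rw [hz, cj_mul, hτe]⟩
    · obtain ⟨x, hx, hz⟩ := z.2
      refine ⟨cj τ⁻¹ x, cj_mem hn (H.inv_mem hτ) hx, ?_⟩
      rw [hz, cj_mul, ← hτe, cj_inv_cj]
  have hcardi : ∀ i, Nat.card {z : Module.End (ZMod p) U // ∃ x ∈ Rg A, z = x * e i} =
      p ^ a := by
    intro i
    fin_cases i
    · exact hcard0
    · exact hcard1
  -- the blocks
  let M : Submodule (Rg A) U :=
    { carrier := {v | e 0 v = v}
      add_mem' := by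
        intro v w hv hw
        change e 0 (v + w) = v + w
        rw [map_add, show e 0 v = v from hv, show e 0 w = w from hw]
      zero_mem' := map_zero _
      smul_mem' := by
        intro x v hv
        change e 0 ((x : Module.End (ZMod p) U) v) = (x : Module.End (ZMod p) U) v
        have h1 := hR _ (hD.mem 0) _ x.2
        have h2 := congrArg (fun f : Module.End (ZMod p) U => f v) h1
        simp only [Module.End.mul_apply] at h2
        rw [h2, show e 0 v = v from hv] }
  have hMq : Nat.card M = q := by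
    rw [← hD.card 0]
    refine Nat.card_congr (Equiv.subtypeEquivRight fun v => ?_)
    constructor
    · intro hv
      exact ⟨v, hv⟩
    · rintro ⟨u, hu⟩
      change e 0 v = v
      rw [← hu, ← Module.End.mul_apply, hD.idem 0]
  have hMn : Nontrivial M := by
    have h1 : ∃ u, e 0 u ≠ 0 := by
      by_contra hcon
      push Not at hcon
      exact hD.ne 0 (LinearMap.ext hcon)
    obtain ⟨u, hu⟩ := h1
    refine ⟨⟨0, ⟨⟨e 0 u, ?_⟩, ?_⟩⟩⟩
    · change e 0 (e 0 u) = e 0 u
      rw [← Module.End.mul_apply, hD.idem 0]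
    · intro h
      exact hu (congrArg Subtype.val h).symm
  obtain ⟨b, hb, hMb⟩ := card_mod (L := Rg A) (M := M) (hE0 0) (hEf 0) (fun m => Subtype.ext (show e 0 m.1 = m.1 from m.2))
  rw [hcard 0, hMq, hcard0, ← pow_mul] at hMb
  -- the group
  let ι : A →* Rg A :=
    { toFun := fun x => ⟨(x.1 : Module.End (ZMod p) U),
        Algebra.subset_adjoin ⟨x.1, x.2, rfl⟩⟩
      map_one' := rfl
      map_mul' := fun x y => rfl }
  have hι : Function.Injective ι := by
    intro x y hxy
    have h1 : (x.1 : Module.End (ZMod p) U) = y.1 := congrArg Subtype.val hxy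
    apply Subtype.ext
    apply LinearEquiv.toLinearMap_injective
    exact h1
  have hdvd := card_dvd ι hι (hE0 0) (hEf 0) (hE0 1) (hEf 1) hEs
  rw [hcard 0, hcard 1, hcard0, hcard1, ← sq] at hdvd
  have h2 : 2 ≤ p ^ a := (Fact.out (p := p.Prime)).two_le.trans
    (Nat.le_self_pow (by omega) p)
  refine ⟨a, b, ha, hb, hcardi, hMb, Nat.le_of_dvd ?_ hdvd, hdvd⟩
  have : 0 < p ^ a - 1 := by omega
  positivity

end Pool.Agent.Helper77.AG
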